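import Pool.Agent.Run7.h253.Pr.Defs

/-!
# The commutative subring generated by `y` and the centre
-/

set_option autoImplicit false

namespace Run7.h253.Pr

open MonoidAlgebra

abbrev B : Type := Multiplicative ℤ × Multiplicative ℤ
abbrev A : Type := MonoidAlgebra ℤ B

instance : NoZeroDivisors A := inferInstance

def j : B →* H where
  toFun g := ⟨0, g.1.toAdd, g.2.toAdd⟩
  map_one' := by ext <;> simp
  map_mul' g h := by ext <;> simp

def tB : B →* B where
  toFun g := (g.1, Multiplicative.ofAdd (g.2.toAdd + 2 * g.1.toAdd))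
  map_one' := by ext <;> simp
  map_mul' g h := by
    ext
    · simp
    · apply Multiplicative.toAdd.injective
      simp
      ring

noncomputable def io : A →+* R := mapDomainRingHom ℤ j
noncomputable def ta : A →+* A := mapDomainRingHom ℤ tB

lemma io_single (g : B) (r : ℤ) : io (single g r) = single (j g) r := by simp [io]
lemma ta_single (g : B) (r : ℤ) : ta (single g r) = single (tB g) r := by simp [ta]

lemma X_io (f : A) : X * io f = io (ta f) * X := by
  have : (AddMonoidHom.mulLeft X).comp io.toAddMonoidHom =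
      ((AddMonoidHom.mulRight X).comp io.toAddMonoidHom).comp ta.toAddMonoidHom := by
    refine MonoidAlgebra.addMonoidHom_ext fun g r => ?_
    change X * io (single g r) = io (ta (single g r)) * X
    simp only [io_single, ta_single, X, s, of_apply, single_mul_single, one_mul, mul_one]
    congr 1
    ext
    · simp [x, j, tB]
    · simp [x, j, tB]
    · simp [x, j, tB]
      ring
  exact DFunLike.congr_fun this f

noncomputable def yA : A := single (Multiplicative.ofAdd 1, 1) 1
noncomputable def yiA : A := single (Multiplicative.ofAdd (-1), 1) 1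
noncomputable def zA : A := single (1, Multiplicative.ofAdd 2) 1
noncomputable def ziA : A := single (1, Multiplicative.ofAdd (-2)) 1

lemma yyi : yA * yiA = 1 := by
  simp only [yA, yiA, single_mul_single, one_def]; rfl
lemma zzi : zA * ziA = 1 := by
  simp only [zA, ziA, single_mul_single, one_def]; rfl

lemma io_y : io yA = Y := by
  rw [yA, io_single]; rfl
lemma io_z : io zA = Z := by
  rw [zA, io_single]; rfl
lemma ta_y : ta yA = zA * yA := by
  rw [yA, ta_single, zA, single_mul_single]; rfl
lemma ta_yi : ta yiA = ziA * yiA := by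
  rw [yiA, ta_single, ziA, single_mul_single]; rfl
lemma ta_z : ta zA = zA := by
  rw [zA, ta_single]; rfl
lemma ta_zi : ta ziA = ziA := by
  rw [ziA, ta_single]; rfl

noncomputable def mA : A := zA * zA - 1
noncomputable def y0 : A := yA - 1
noncomputable def y1 : A := zA * yA - 1
noncomputable def y2 : A := zA * zA * yA - 1
noncomputable def ym : A := ziA * yA - 1
noncomputable def uA : A := 1 + mA * (y0 * y1)
noncomputable def um : A := 1 + mA * (ym * y0)
noncomputable def cA : A := zA * yiA * (y0 * (y1 * y1))
noncomputable def dA : A := 2 - uA + cA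

lemma io_m : io mA = m := by simp [mA, m, io_z]
lemma io_y0 : io y0 = Y0 := by simp [y0, Y0, io_y]
lemma io_y1 : io y1 = Y1 := by simp [y1, Y1, io_y, io_z]
lemma io_u : io uA = u := by simp [uA, u, io_m, io_y0, io_y1]

lemma ta_m : ta mA = mA := by simp [mA, ta_z]
lemma ta_y0 : ta y0 = y1 := by simp [y0, y1, ta_y]
lemma ta_ym : ta ym = y0 := by
  simp only [ym, y0, map_sub, map_mul, map_one, ta_zi, ta_y]
  linear_combination yA * zzi
lemma ta_um : ta um = uA := by simp [um, uA, ta_m, ta_ym, ta_y0]

lemma bez : um * cA = uA * dA - 1 := by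
  have h : (uA - um) * cA = (uA - 1) ^ 2 := by
    simp only [uA, um, cA, mA, y0, y1, ym]
    have h1 := yyi
    have h2 := zzi
    generalize yA = Y at *
    generalize yiA = Yi at *
    generalize zA = Z at *
    generalize ziA = Zi at *
    have h3 : (1 + (Z * Z - 1) * ((Y - 1) * (Z * Y - 1)) - (1 + (Z * Z - 1) * ((Zi * Y - 1) * (Y - 1)))) =
      (Z * Z - 1) * (Y - 1) * (Z - Zi) * Y := by ring
    rw [h3]
    have h4 : (Z - Zi) * Z = Z * Z - 1 := by linear_combination -h2
    calc (Z * Z - 1) * (Y - 1) * (Z - Zi) * Y * (Z * Yi * ((Y - 1) * ((Z * Y - 1) * (Z * Y - 1))))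
        = (Z * Z - 1) * (Y - 1) * ((Z - Zi) * Z) * (Y * Yi) *
          ((Y - 1) * ((Z * Y - 1) * (Z * Y - 1))) := by ring
      _ = _ := by rw [h4, h1]; ring
  simp only [dA]
  linear_combination -h

/-- the Bezout coefficients -/
noncomputable def q : R := io (um * (y0 * cA))
noncomputable def p : R := io (1 + dA - uA * dA) + io (mA * (y0 * (y1 * ta cA))) * X

lemma unim : u * p + v * q = 1 := by
  have hv : v * q = io (mA * y1 * (um * (y0 * cA))) - io (mA * y0 * ta (um * (y0 * cA))) * X := by
    rw [q, v, ← io_m, ← io_y1, ← io_y0, mul_assoc, sub_mul, mul_assoc (io y0) X, X_io]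
    simp only [map_mul, mul_sub, mul_assoc]
  have hu : u * p = io (uA * (1 + dA - uA * dA)) + io (uA * (mA * (y0 * (y1 * ta cA)))) * X := by
    rw [p, ← io_u, mul_add, ← mul_assoc (io uA) _ X, ← map_mul, ← map_mul]
  rw [hv, hu]
  have h1 : mA * y0 * ta (um * (y0 * cA)) = uA * (mA * (y0 * (y1 * ta cA))) := by
    rw [map_mul, map_mul, ta_um, ta_y0]; ring
  rw [h1]
  have h2 : uA * (1 + dA - uA * dA) + mA * y1 * (um * (y0 * cA)) = 1 := by
    have h3 : mA * (y0 * y1) = uA - 1 := by simp [uA]
    linear_combination (mA * (y0 * y1)) * bez + (uA * dA - 1) * h3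
  have h4 : io (uA * (1 + dA - uA * dA)) + io (mA * y1 * (um * (y0 * cA))) = 1 := by
    rw [← map_add, h2, map_one]
  rw [← h4]
  abel

end Run7.h253.Pr
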