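import Mathlib

/-!
# A Heisenberg type group, its integral group ring, Fox derivatives
-/

set_option autoImplicit false

namespace Run7.h253.Pr

/-- Heisenberg type group: `(v, c) (v', c') = (v + v', c + c' + det (v, v'))` -/
@[ext] structure H where
  a : ℤ
  b : ℤ
  c : ℤ

namespace H

instance : Mul H := ⟨fun g h => ⟨g.a + h.a, g.b + h.b, g.c + h.c + (g.a * h.b - h.a * g.b)⟩⟩
instance : One H := ⟨⟨0, 0, 0⟩⟩
instance : Inv H := ⟨fun g => ⟨-g.a, -g.b, -g.c⟩⟩

@[simp] lemma mul_a (g h : H) : (g * h).a = g.a + h.a := rfl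
@[simp] lemma mul_b (g h : H) : (g * h).b = g.b + h.b := rfl
@[simp] lemma mul_c (g h : H) : (g * h).c = g.c + h.c + (g.a * h.b - h.a * g.b) := rfl
@[simp] lemma one_a : (1 : H).a = 0 := rfl
@[simp] lemma one_b : (1 : H).b = 0 := rfl
@[simp] lemma one_c : (1 : H).c = 0 := rfl
@[simp] lemma inv_a (g : H) : (g⁻¹).a = -g.a := rfl
@[simp] lemma inv_b (g : H) : (g⁻¹).b = -g.b := rfl
@[simp] lemma inv_c (g : H) : (g⁻¹).c = -g.c := rfl

instance : Group H := Group.ofLeftAxioms
  (fun f g h => by ext <;> simp <;> ring)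
  (fun g => by ext <;> simp)
  (fun g => by ext <;> simp <;> ring)

/-- the endomorphism with `(1,0,0) ↦ g`, `(0,1,0) ↦ h` -/
def E (g h : H) : H →* H where
  toFun k := ⟨k.a * g.a + k.b * h.a, k.a * g.b + k.b * h.b,
    (g.a * h.b - h.a * g.b) * k.c + k.a * g.c + k.b * h.c⟩
  map_one' := by ext <;> simp
  map_mul' k l := by ext <;> simp <;> ring

end H

/-- the group ring -/
abbrev R : Type := MonoidAlgebra ℤ H

/-- group elements in the group ring -/
noncomputable def s : H →* R := MonoidAlgebra.of ℤ H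

def x : H := ⟨1, 0, 0⟩
def y : H := ⟨0, 1, 0⟩
def z : H := ⟨0, 0, 2⟩

noncomputable def X : R := s x
noncomputable def Y : R := s y
noncomputable def Yi : R := s y⁻¹
noncomputable def Z : R := s z
noncomputable def Zi : R := s z⁻¹

/-- `z² - 1` -/
noncomputable def m : R := Z * Z - 1
/-- `y - 1` -/
noncomputable def Y0 : R := Y - 1
/-- `z y - 1` -/
noncomputable def Y1 : R := Z * Y - 1
/-- `∂h/∂x` -/
noncomputable def u : R := 1 + m * (Y0 * Y1)
/-- `∂h/∂y` -/
noncomputable def v : R := m * (Y1 - Y0 * X)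

end Run7.h253.Pr
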