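import Pool.Agent.Run7.h253.Pr.Nzd
import Pool.Agent.Run7.h253.Pr.Alg

/-!
# The kernel of the row `(u, v)` is not principal
-/

set_option autoImplicit false

namespace Run7.h253.Pr

open MonoidAlgebra

lemma lt_mul {a b c d : H} (h1 : a ≤ b) (h2 : c ≤ d) (h : a * c = b * d) : a = b ∧ c = d := by
  rcases h1.lt_or_eq with h3 | h3
  · exfalso
    have h4 : a * c < b * c := mul_lt_mul_left h3 c
    have h5 : b * c ≤ b * d := by
      rcases h2.lt_or_eq with h6 | h6
      · exact (mul_lt_mul_right h6 b).le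
      · rw [h6]
    exact absurd h (ne_of_lt (lt_of_lt_of_le h4 h5))
  · subst h3
    exact ⟨rfl, mul_left_cancel h⟩

lemma a_mono {g h : H} (hgh : g ≤ h) : g.a ≤ h.a := by
  rcases hgh.lt_or_eq with h1 | h1
  · rcases (lt_iff g h).1 h1 with h2 | ⟨h2, _⟩
    · exact h2.le
    · exact h2.le
  · rw [h1]

lemma deg (f g w : R) (hw : w ≠ 0) (h : f * g = w) (h0 : ∀ k ∈ w.coeff.support, k.a = 0) :
    ∃ n : ℤ, ∀ k ∈ f.coeff.support, k.a = n := by
  have hf : f ≠ 0 := by rintro rfl; exact hw (by rw [← h, zero_mul])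
  have hg : g ≠ 0 := by rintro rfl; exact hw (by rw [← h, mul_zero])
  have hf' : f.coeff.support.Nonempty := by
    rw [Finsupp.support_nonempty_iff]
    simpa using hf
  have hg' : g.coeff.support.Nonempty := by
    rw [Finsupp.support_nonempty_iff]
    simpa using hg
  have h1 : UniqueMul f.coeff.support g.coeff.support (f.coeff.support.max' hf')
      (g.coeff.support.max' hg') := by
    intro a b ha hb hab
    exact lt_mul (Finset.le_max' _ _ ha) (Finset.le_max' _ _ hb) hab
  have h2 : UniqueMul f.coeff.support g.coeff.support (f.coeff.support.min' hf')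
      (g.coeff.support.min' hg') := by
    intro a b ha hb hab
    obtain ⟨h3, h4⟩ := lt_mul (Finset.min'_le _ _ ha) (Finset.min'_le _ _ hb) hab.symm
    exact ⟨h3.symm, h4.symm⟩
  have h3 := coeff_mul_mul_of_uniqueMul h1
  have h4 := coeff_mul_mul_of_uniqueMul h2
  rw [h] at h3 h4
  have h5 : (f.coeff.support.max' hf' * g.coeff.support.max' hg').a = 0 := by
    apply h0
    rw [Finsupp.mem_support_iff, h3]
    exact mul_ne_zero (Finsupp.mem_support_iff.1 (Finset.max'_mem _ _))
      (Finsupp.mem_support_iff.1 (Finset.max'_mem _ _))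
  have h6 : (f.coeff.support.min' hf' * g.coeff.support.min' hg').a = 0 := by
    apply h0
    rw [Finsupp.mem_support_iff, h4]
    exact mul_ne_zero (Finsupp.mem_support_iff.1 (Finset.min'_mem _ _))
      (Finsupp.mem_support_iff.1 (Finset.min'_mem _ _))
  rw [H.mul_a] at h5 h6
  have h7 : (g.coeff.support.min' hg').a ≤ (g.coeff.support.max' hg').a :=
    a_mono (Finset.min'_le _ _ (Finset.max'_mem _ _))
  refine ⟨(f.coeff.support.max' hf').a, fun k hk => ?_⟩
  have h8 := a_mono (Finset.le_max' _ _ hk)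
  have h9 := a_mono (Finset.min'_le _ _ hk)
  omega

lemma j_inj : Function.Injective j := by
  intro g h hgh
  have h1 := congrArg H.b hgh
  have h2 := congrArg H.c hgh
  simp only [j, MonoidHom.coe_mk, OneHom.coe_mk] at h1 h2
  exact Prod.ext (Multiplicative.toAdd.injective h1) (Multiplicative.toAdd.injective h2)

/-- degree zero part -/
noncomputable def pi : R →+ A where
  toFun f := ofCoeff (f.coeff.comapDomain j j_inj.injOn)
  map_zero' := by
    ext b
    simp
  map_add' f g := by
    ext b
    simp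

lemma pi_coeff (f : R) (b : B) : (pi f).coeff b = f.coeff (j b) := rfl

lemma io_pi {f : R} (hf : ∀ k ∈ f.coeff.support, k.a = 0) : io (pi f) = f := by
  have h : (io (pi f)).coeff = f.coeff := by
    have h1 := Finsupp.mapDomain_comapDomain j j_inj f.coeff (fun k hk => by
      refine ⟨(Multiplicative.ofAdd k.b, Multiplicative.ofAdd k.c), ?_⟩
      ext
      · exact (hf k hk).symm
      · rfl
      · rfl)
    exact h1
  exact coeff_injective h

lemma pi_single_j (b : B) (r : ℤ) : pi (single (j b) r) = single b r := by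
  classical
  ext b'
  rw [pi_coeff]
  simp only [coeff_single, Finsupp.single_apply, j_inj.eq_iff]

lemma pi_single_ne (g : H) (hg : g.a ≠ 0) (r : ℤ) : pi (single g r) = 0 := by
  classical
  ext b'
  rw [pi_coeff]
  simp only [coeff_single, Finsupp.single_apply]
  rw [if_neg]
  · rfl
  · rintro rfl
    exact hg rfl

lemma pi_io_mul (al : A) (f : R) : pi (io al * f) = al * pi f := by
  have h : ∀ (b : B) (r : ℤ), (pi.comp (AddMonoidHom.mulLeft (io (single b r)))) =
      (AddMonoidHom.mulLeft (single b r)).comp pi := by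
    intro b r
    refine MonoidAlgebra.addMonoidHom_ext fun g r' => ?_
    change pi (io (single b r) * single g r') = single b r * pi (single g r')
    rw [io_single, single_mul_single]
    by_cases hg : g.a = 0
    · have h1 : g = j (Multiplicative.ofAdd g.b, Multiplicative.ofAdd g.c) := by
        ext
        · exact hg
        · rfl
        · rfl
      rw [h1, ← map_mul, pi_single_j, pi_single_j, single_mul_single]
    · rw [pi_single_ne, pi_single_ne g hg, mul_zero]
      simpa [j] using hg
  have h2 : (pi.comp ((AddMonoidHom.mulRight f).comp io.toAddMonoidHom)) =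
      (AddMonoidHom.mulRight (pi f)) := by
    refine MonoidAlgebra.addMonoidHom_ext fun b r => ?_
    exact DFunLike.congr_fun (h b r) f
  exact DFunLike.congr_fun h2 al

lemma pi_X : pi X = 0 := pi_single_ne x (by simp [x]) 1
lemma pi_one : pi 1 = 1 := by
  have := pi_single_j 1 1
  rwa [map_one] at this
lemma pi_io (al : A) : pi (io al) = al := by
  have := pi_io_mul al 1
  rwa [mul_one, pi_one, mul_one] at this
lemma pi_io_X (al : A) : pi (io al * X) = 0 := by rw [pi_io_mul, pi_X, mul_zero]
lemma pi_io_Xi (al : A) : pi (io al * s x⁻¹) = 0 := by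
  rw [pi_io_mul]
  have : pi (s x⁻¹) = 0 := pi_single_ne x⁻¹ (by simp [x]) 1
  rw [this, mul_zero]

lemma v_io (al : A) : v * io al = io (mA * y1 * al) - io (mA * y0 * ta al) * X := by
  rw [v, ← io_m, ← io_y1, ← io_y0, mul_assoc, sub_mul, mul_assoc (io y0) X, X_io]
  simp only [map_mul, mul_sub, mul_assoc]

/-- values -/
noncomputable def ev : A →+* ZMod 7 :=
  (MonoidAlgebra.lift ℤ (ZMod 7) B
    { toFun := fun g : B => (((⟨5, 3, by decide, by decide⟩ : (ZMod 7)ˣ) ^ g.1.toAdd *
        (⟨2, 4, by decide, by decide⟩ : (ZMod 7)ˣ) ^ g.2.toAdd : (ZMod 7)ˣ) : ZMod 7)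
      map_one' := by simp
      map_mul' := fun g h => by
        rw [← Units.val_mul]
        congr 1
        simp only [Prod.fst_mul, Prod.snd_mul, toAdd_mul, zpow_add]
        exact mul_mul_mul_comm _ _ _ _ }).toRingHom

lemma ev_y : ev yA = 5 := by
  simp [ev, yA]
lemma ev_z : ev zA = 4 := by
  simp only [ev, zA]
  simp
  decide
lemma ev_u : ev uA = 0 := by
  simp only [uA, mA, y0, y1, map_add, map_mul, map_sub, map_one, ev_y, ev_z]
  decide

lemma not_unit : ¬ uA ∣ 1 := by
  intro h
  have := map_dvd ev h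
  rw [ev_u, map_one, zero_dvd_iff] at this
  exact absurd this (by decide)

/-- augmentation -/
noncomputable def ag : A →+* ℤ := (MonoidAlgebra.lift ℤ ℤ B 1).toRingHom

lemma ag_u : ag uA = 1 := by
  simp only [uA, mA, map_add, map_mul, map_sub, map_one]
  have : ag zA = 1 := by simp [ag, zA]
  rw [this]
  simp

theorem nonprin (c1 c2 : R) (h0 : u * c1 + v * c2 = 0)
    (h1 : ∀ p q : R, u * p + v * q = 0 → ∃ t, q = c2 * t) : False := by
  have hmy : mA * (y0 * y1) = uA - 1 := by simp [uA]
  have huA : uA ≠ 0 := by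
    intro h
    have h2 := congrArg ag h
    rw [ag_u, map_zero] at h2
    exact one_ne_zero h2
  have humA : um ≠ 0 := by
    intro h
    exact huA (by rw [← ta_um, h, map_zero])
  -- first element
  obtain ⟨tA, htA⟩ := h1 (-(io (mA * y1 * um) - io (mA * y0 * ta uA) * X)) (io (uA * um)) (by
    rw [v_io, ← io_u]
    have e1 : mA * y1 * (uA * um) = uA * (mA * y1 * um) := by ring
    have e2 : mA * y0 * ta (uA * um) = uA * (mA * y0 * ta uA) := by rw [map_mul, ta_um]; ring
    rw [e1, e2, map_mul io uA, map_mul io uA]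
    noncomm_ring)
  -- second element
  obtain ⟨tB, htB⟩ := h1
    (-(io (mA * y1) + io (mA * y0 * ta uA * (uA * dA - dA - 1)) * X -
      io (mA * y0 * ta (mA * (y0 * (y0 * (cA * ta uA))))) * X * X))
    (io uA + io (um * (mA * (y0 * (y0 * (cA * ta uA))))) * X) (by
    rw [mul_add v, ← mul_assoc v, v_io, v_io, ← io_u]
    have e1 : mA * y1 * uA = uA * (mA * y1) := by ring
    have e2 : mA * y0 * ta (um * (mA * (y0 * (y0 * (cA * ta uA))))) =
      uA * (mA * y0 * ta (mA * (y0 * (y0 * (cA * ta uA))))) := by rw [map_mul ta um, ta_um]; ring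
    have e3 : mA * y1 * (um * (mA * (y0 * (y0 * (cA * ta uA))))) - mA * y0 * ta uA =
      uA * (mA * y0 * ta uA * (uA * dA - dA - 1)) := by
      have e4 : mA * y1 * (um * (mA * (y0 * (y0 * (cA * ta uA))))) - mA * y0 * ta uA =
        mA * y0 * ta uA * ((mA * (y0 * y1)) * (um * cA) - 1) := by ring
      rw [e4, hmy, bez]
      ring
    have e5 : io (mA * y1 * (um * (mA * (y0 * (y0 * (cA * ta uA)))))) =
      io (mA * y0 * ta uA) + io uA * io (mA * y0 * ta uA * (uA * dA - dA - 1)) := by
      rw [← map_mul, ← e3, ← map_add]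
      congr 1
      ring
    rw [e1, e2, e5, map_mul io uA, map_mul io uA]
    noncomm_ring)
  have hne : io (uA * um) ≠ 0 := by
    intro h
    have := congrArg pi h
    rw [pi_io, map_zero] at this
    rcases mul_eq_zero.1 this with h2 | h2
    · exact huA h2
    · exact humA h2
  obtain ⟨n, hn⟩ := deg c2 tA _ hne htA.symm (by
    intro k hk
    rw [Finsupp.mem_support_iff] at hk
    by_contra hka
    apply hk
    have : (io (uA * um)).coeff = Finsupp.mapDomain j (uA * um).coeff := rfl
    rw [this, Finsupp.mapDomain_notin_range]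
    rintro ⟨b, rfl⟩
    exact hka rfl)
  -- normalisation
  set S : H := ⟨-n, 0, 0⟩ with hS
  have hSS : s S * s S⁻¹ = 1 := by rw [← map_mul]; simp
  have hc : io (pi (c2 * s S)) = c2 * s S := io_pi (fun k hk => by
    rw [Finsupp.mem_support_iff] at hk
    have h2 : (c2 * s S).coeff k = c2.coeff (k * S⁻¹) * 1 := by
      exact coeff_mul_single_eq_coeff_mul (k * S⁻¹) (fun m' _ => eq_mul_inv_iff_mul_eq.symm)
    rw [h2, mul_one] at hk
    have h3 := hn _ (Finsupp.mem_support_iff.2 hk)
    simp only [H.mul_a, H.inv_a, hS] at h3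
    omega)
  set a : A := pi (c2 * s S) with ha
  have hc2 : c2 = io a * s S⁻¹ := by rw [hc, mul_assoc, hSS, mul_one]
  -- the first relation
  have h2 : u * (c1 * s S) + v * io a = 0 := by
    rw [hc, ← mul_assoc, ← mul_assoc, ← add_mul, h0, zero_mul]
  rw [v_io, ← io_u] at h2
  have d1 : uA ∣ mA * y1 * a := by
    have h3 := congrArg pi h2
    rw [map_add, map_sub, pi_io_mul, pi_io, pi_io_X, map_zero, sub_zero] at h3
    exact ⟨-pi (c1 * s S), by linear_combination h3⟩
  have d2 : uA ∣ mA * y0 * ta a := by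
    have h3 := congrArg (fun t => pi (t * s x⁻¹)) h2
    have h4 : X * s x⁻¹ = 1 := by rw [X, ← map_mul]; simp
    simp only [add_mul, sub_mul, mul_assoc (io uA), mul_assoc (io (mA * y0 * ta a)), h4, mul_one,
      zero_mul] at h3
    rw [map_add, map_sub, pi_io_mul, pi_io, pi_io_Xi, map_zero, zero_sub] at h3
    exact ⟨pi (c1 * s S * s x⁻¹), by linear_combination -h3⟩
  have d3 : a ∣ uA := by
    have h3 := congrArg pi htB
    rw [hc2, mul_assoc, pi_io_mul, map_add, pi_io, pi_io_X, add_zero] at h3
    exact ⟨_, h3⟩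
  have d4 : uA ∣ ta a := by
    have h3 : uA ∣ y1 * (mA * y0 * ta a) := Dvd.dvd.mul_left d2 _
    have h4 : ta a = uA * ta a - y1 * (mA * y0 * ta a) := by linear_combination (ta a) * hmy
    rw [h4]
    exact dvd_sub (dvd_mul_right _ _) h3
  have d5 : uA ∣ ta uA := d4.trans (map_dvd ta d3)
  have d6 : uA ∣ 1 := by
    have h3 := congrArg ta bez
    rw [map_mul, map_sub, map_mul, map_one, ta_um] at h3
    have h4 : (1 : A) = ta uA * ta dA - uA * ta cA := by linear_combination h3
    rw [h4]
    exact dvd_sub (Dvd.dvd.mul_right d5 _) (dvd_mul_right _ _)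
  exact not_unit d6

end Run7.h253.Pr
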