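import Pool.Agent.Run7.h253.Pr.Words
import Pool.Agent.Run7.h253.Pr.Deg

/-!
# The element is not primitive; the endomorphism is injective
-/

set_option autoImplicit false

namespace Run7.h253.Pr

lemma E_id : H.E x y = MonoidHom.id H := by
  ext g <;> simp [H.E, x, y]

lemma e_id : Mg.e x y = RingHom.id R := by
  rw [Mg.e, E_id]
  simp

/-- aug -/
noncomputable def agR : R →+* ℤ := (MonoidAlgebra.lift ℤ ℤ H 1).toRingHom

lemma p_ne : p ≠ 0 := by
  intro h
  have h1 := congrArg agR unim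
  have hZ : agR Z = 1 := by simp [agR, Z, s]
  have hm : agR m = 0 := by simp [m, hZ]
  have hu : agR u = 1 := by simp [u, hm]
  have hv : agR v = 0 := by simp [v, hm]
  rw [h] at h1
  simp [hv] at h1

lemma kill {P Q : R} (h1 : P * (1 - p * (u - 1)) + Q * (-(q * (u - 1))) = 0)
    (h2 : P * (-(p * v)) + Q * (1 - q * v) = 0) : P = 0 ∧ Q = 0 := by
  have hP : P = (P * p + Q * q) * (u - 1) := by
    have : P - (P * p + Q * q) * (u - 1) = P * (1 - p * (u - 1)) + Q * (-(q * (u - 1))) := by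
      noncomm_ring
    rw [h1] at this
    exact sub_eq_zero.1 this
  have hQ : Q = (P * p + Q * q) * v := by
    have : Q - (P * p + Q * q) * v = P * (-(p * v)) + Q * (1 - q * v) := by noncomm_ring
    rw [h2] at this
    exact sub_eq_zero.1 this
  have ht : (P * p + Q * q) * p = 0 := by
    have h3 : P * p + Q * q = (P * p + Q * q) * (u - 1) * p + (P * p + Q * q) * v * q := by
      rw [← hP, ← hQ]
    have h4 : (P * p + Q * q) * (u - 1) * p + (P * p + Q * q) * v * q =
        (P * p + Q * q) * (u * p + v * q) - (P * p + Q * q) * p := by noncomm_ring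
    rw [h4, unim, mul_one] at h3
    have h5 : (P * p + Q * q) * p = (P * p + Q * q) - ((P * p + Q * q) - (P * p + Q * q) * p) := by
      abel
    rw [h5, ← h3, sub_self]
  have ht0 := (mul_eq_zero.1 ht).resolve_right p_ne
  rw [ht0, zero_mul] at hP hQ
  exact ⟨hP, hQ⟩

lemma EE_id {a b : Fin 2 → Mg}
    (hx : H.E (a 0).g (a 1).g (b 0).g = x) (hy : H.E (a 0).g (a 1).g (b 1).g = y) :
    (H.E (a 0).g (a 1).g).comp (H.E (b 0).g (b 1).g) = MonoidHom.id H := by
  have h1 := congrArg H.a hx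
  have h2 := congrArg H.b hx
  have h3 := congrArg H.c hx
  have h4 := congrArg H.a hy
  have h5 := congrArg H.b hy
  have h6 := congrArg H.c hy
  simp only [H.E, MonoidHom.coe_mk, OneHom.coe_mk, x, y] at h1 h2 h3 h4 h5 h6
  ext g
  · simp only [H.E, MonoidHom.comp_apply, MonoidHom.coe_mk, OneHom.coe_mk, MonoidHom.id_apply]
    linear_combination g.a * h1 + g.b * h4
  · simp only [H.E, MonoidHom.comp_apply, MonoidHom.coe_mk, OneHom.coe_mk, MonoidHom.id_apply]
    linear_combination g.a * h2 + g.b * h5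
  · simp only [H.E, MonoidHom.comp_apply, MonoidHom.coe_mk, OneHom.coe_mk, MonoidHom.id_apply]
    have hD : ((a 0).g.a * (a 1).g.b - (a 1).g.a * (a 0).g.b) *
        ((b 0).g.a * (b 1).g.b - (b 1).g.a * (b 0).g.b) = 1 := by
      have e1 : ((a 0).g.a * (a 1).g.b - (a 1).g.a * (a 0).g.b) *
          ((b 0).g.a * (b 1).g.b - (b 1).g.a * (b 0).g.b) =
          ((b 0).g.a * (a 0).g.a + (b 0).g.b * (a 1).g.a) *
            ((b 1).g.a * (a 0).g.b + (b 1).g.b * (a 1).g.b) -
          ((b 0).g.a * (a 0).g.b + (b 0).g.b * (a 1).g.b) *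
            ((b 1).g.a * (a 0).g.a + (b 1).g.b * (a 1).g.a) := by ring
      rw [e1, h1, h2, h4, h5]
      norm_num
    linear_combination g.c * hD + g.a * h3 + g.b * h6


lemma ee {a b : Fin 2 → Mg}
    (hx : H.E (a 0).g (a 1).g (b 0).g = x) (hy : H.E (a 0).g (a 1).g (b 1).g = y) (t : R) :
    Mg.e (a 0).g (a 1).g (Mg.e (b 0).g (b 1).g t) = t := by
  have h : ((Mg.e (a 0).g (a 1).g).comp (Mg.e (b 0).g (b 1).g)).toAddMonoidHom =
      AddMonoidHom.id R := by
    refine MonoidAlgebra.addMonoidHom_ext fun g r => ?_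
    change Mg.e (a 0).g (a 1).g (Mg.e (b 0).g (b 1).g (MonoidAlgebra.single g r)) =
      MonoidAlgebra.single g r
    simp only [Mg.e, MonoidAlgebra.mapDomainRingHom_apply, MonoidAlgebra.mapDomain_single]
    have := DFunLike.congr_fun (EE_id hx hy) g
    simp only [MonoidHom.comp_apply, MonoidHom.id_apply] at this
    rw [this]
  exact DFunLike.congr_fun h t

theorem nonprim (a b : Fin 2 → Mg) (i : Fin 2)
    (h1 : ∀ j : Fin 2, Mg.Th (b 0) (b 1) (a j) = mu (FreeGroup.of j))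
    (h2 : ∀ j : Fin 2, Mg.Th (a 0) (a 1) (b j) = mu (FreeGroup.of j))
    (hA : a i = ⟨x, u, v⟩) : False := by
  have hx : H.E (a 0).g (a 1).g (b 0).g = x := by
    have := congrArg Mg.g (h2 0)
    rwa [mu0] at this
  have hy : H.E (a 0).g (a 1).g (b 1).g = y := by
    have := congrArg Mg.g (h2 1)
    rwa [mu1] at this
  have hee := fun t => ee hx hy t
  -- CA = 1
  have c1 : Mg.e (a 0).g (a 1).g (b 1).p * (a 0).p + Mg.e (a 0).g (a 1).g (b 1).q * (a 1).p = 0 := by
    have := congrArg Mg.p (h2 1)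
    rwa [mu1] at this
  have c2 : Mg.e (a 0).g (a 1).g (b 1).p * (a 0).q + Mg.e (a 0).g (a 1).g (b 1).q * (a 1).q = 1 := by
    have := congrArg Mg.q (h2 1)
    rwa [mu1] at this
  -- AC = 1
  have d1 : (a 0).p * Mg.e (a 0).g (a 1).g (b 0).q + (a 0).q * Mg.e (a 0).g (a 1).g (b 1).q = 0 := by
    have h3 := congrArg Mg.q (h1 0)
    rw [mu0] at h3
    have h4 : Mg.e (b 0).g (b 1).g (a 0).p * (b 0).q + Mg.e (b 0).g (b 1).g (a 0).q * (b 1).q = 0 := h3
    have h5 := congrArg (Mg.e (a 0).g (a 1).g) h4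
    rw [map_add, map_mul, map_mul, hee, hee, map_zero] at h5
    exact h5
  have d2 : (a 1).p * Mg.e (a 0).g (a 1).g (b 0).p + (a 1).q * Mg.e (a 0).g (a 1).g (b 1).p = 0 := by
    have h3 := congrArg Mg.p (h1 1)
    rw [mu1] at h3
    have h4 : Mg.e (b 0).g (b 1).g (a 1).p * (b 0).p + Mg.e (b 0).g (b 1).g (a 1).q * (b 1).p = 0 := h3
    have h5 := congrArg (Mg.e (a 0).g (a 1).g) h4
    rw [map_add, map_mul, map_mul, hee, hee, map_zero] at h5
    exact h5
  generalize Mg.e (a 0).g (a 1).g (b 1).p = C10 at *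
  generalize Mg.e (a 0).g (a 1).g (b 1).q = C11 at *
  have key : ∀ P Q : R, Q = C10 * ((a 0).p * P + (a 0).q * Q) + C11 * ((a 1).p * P + (a 1).q * Q) := by
    intro P Q
    have : C10 * ((a 0).p * P + (a 0).q * Q) + C11 * ((a 1).p * P + (a 1).q * Q) =
        (C10 * (a 0).p + C11 * (a 1).p) * P + (C10 * (a 0).q + C11 * (a 1).q) * Q := by
      noncomm_ring
    rw [this, c1, c2, zero_mul, one_mul, zero_add]
  fin_cases i
  · have hA' : a 0 = ⟨x, u, v⟩ := hA
    rw [hA'] at d1 key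
    refine nonprin _ _ d1 (fun P Q hPQ => ⟨(a 1).p * P + (a 1).q * Q, ?_⟩)
    have h3 := key P Q
    simp only [] at h3
    rw [hPQ, mul_zero, zero_add] at h3
    exact h3
  · have hA' : a 1 = ⟨x, u, v⟩ := hA
    rw [hA'] at d2 key
    refine nonprin _ _ d2 (fun P Q hPQ => ⟨(a 0).p * P + (a 0).q * Q, ?_⟩)
    have h3 := key P Q
    simp only [] at h3
    rw [hPQ, mul_zero, add_zero] at h3
    exact h3

end Run7.h253.Pr
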