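import Pool.Agent.Run7.h253.Pr.Defs

/-!
# The Magnus group and the chain rule
-/

set_option autoImplicit false

namespace Run7.h253.Pr

/-- pairs: a group element and a row -/
@[ext] structure Mg where
  g : H
  p : R
  q : R

namespace Mg

noncomputable instance : Mul Mg := ⟨fun a b => ⟨a.g * b.g, a.p + s a.g * b.p, a.q + s a.g * b.q⟩⟩
noncomputable instance : One Mg := ⟨⟨1, 0, 0⟩⟩
noncomputable instance : Inv Mg := ⟨fun a => ⟨a.g⁻¹, -(s a.g⁻¹ * a.p), -(s a.g⁻¹ * a.q)⟩⟩

@[simp] lemma mul_g (a b : Mg) : (a * b).g = a.g * b.g := rfl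
@[simp] lemma mul_p (a b : Mg) : (a * b).p = a.p + s a.g * b.p := rfl
@[simp] lemma mul_q (a b : Mg) : (a * b).q = a.q + s a.g * b.q := rfl
@[simp] lemma one_g : (1 : Mg).g = 1 := rfl
@[simp] lemma one_p : (1 : Mg).p = 0 := rfl
@[simp] lemma one_q : (1 : Mg).q = 0 := rfl
@[simp] lemma inv_g (a : Mg) : (a⁻¹).g = a.g⁻¹ := rfl
@[simp] lemma inv_p (a : Mg) : (a⁻¹).p = -(s a.g⁻¹ * a.p) := rfl
@[simp] lemma inv_q (a : Mg) : (a⁻¹).q = -(s a.g⁻¹ * a.q) := rfl

noncomputable instance : Group Mg := Group.ofLeftAxioms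
  (fun a b c => by
    apply Mg.ext
    · simp [mul_assoc]
    · simp [mul_add, add_assoc, mul_assoc]
    · simp [mul_add, add_assoc, mul_assoc])
  (fun a => by apply Mg.ext <;> simp)
  (fun a => by apply Mg.ext <;> simp)

/-- ring endomorphism of `R` -/
noncomputable def e (g h : H) : R →+* R := MonoidAlgebra.mapDomainRingHom ℤ (H.E g h)

lemma e_s (g h k : H) : e g h (s k) = s (H.E g h k) := by
  simp [e, s]

/-- chain rule homomorphism -/
noncomputable def Th (a b : Mg) : Mg →* Mg where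
  toFun c := ⟨H.E a.g b.g c.g, e a.g b.g c.p * a.p + e a.g b.g c.q * b.p,
    e a.g b.g c.p * a.q + e a.g b.g c.q * b.q⟩
  map_one' := by apply Mg.ext <;> simp
  map_mul' c d := by
    apply Mg.ext
    · simp
    · simp only [mul_p, mul_q, map_add, map_mul, e_s]
      noncomm_ring
    · simp only [mul_p, mul_q, map_add, map_mul, e_s]
      noncomm_ring

end Mg

open Mg

abbrev F2 : Type := FreeGroup (Fin 2)

/-- Magnus homomorphism -/
noncomputable def mu : F2 →* Mg := FreeGroup.lift ![⟨x, 1, 0⟩, ⟨y, 0, 1⟩]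

lemma mu0 : mu (FreeGroup.of 0) = ⟨x, 1, 0⟩ := by simp [mu]
lemma mu1 : mu (FreeGroup.of 1) = ⟨y, 0, 1⟩ := by simp [mu]

lemma chain (f : Fin 2 → F2) (w : F2) :
    mu (FreeGroup.lift f w) = Th (mu (f 0)) (mu (f 1)) (mu w) := by
  have : mu.comp (FreeGroup.lift f) = (Th (mu (f 0)) (mu (f 1))).comp mu := by
    ext1 i
    fin_cases i
    · simp only [Fin.zero_eta, MonoidHom.comp_apply, FreeGroup.lift_apply_of, mu0]
      apply Mg.ext
      · ext <;> simp [Th, H.E, x]
      · simp [Th]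
      · simp [Th]
    · simp only [Fin.mk_one, MonoidHom.comp_apply, FreeGroup.lift_apply_of, mu1]
      apply Mg.ext
      · ext <;> simp [Th, H.E, y]
      · simp [Th]
      · simp [Th]
  exact DFunLike.congr_fun this w

/-- the laws -/
def W : Set (FreeGroup ℕ) := {w | ∀ f : ℕ → F2, mu (FreeGroup.lift f w) = 1}

lemma ker_eq : mu.ker = Subgroup.closure
    {x : F2 | ∃ (f : ℕ → F2) (w : FreeGroup ℕ), w ∈ W ∧ FreeGroup.lift f w = x} := by
  apply le_antisymm
  · intro w hw
    apply Subgroup.subset_closure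
    refine ⟨fun n => if n = 0 then FreeGroup.of 0 else FreeGroup.of 1,
      FreeGroup.lift (fun i : Fin 2 => FreeGroup.of (i : ℕ)) w, ?_, ?_⟩
    · intro f
      have h1 : FreeGroup.lift f (FreeGroup.lift (fun i : Fin 2 => FreeGroup.of (i : ℕ)) w) =
          FreeGroup.lift (fun i : Fin 2 => f i) w := by
        have : (FreeGroup.lift f).comp (FreeGroup.lift (fun i : Fin 2 => FreeGroup.of (i : ℕ))) =
            FreeGroup.lift (fun i : Fin 2 => f i) := by
          ext1 i
          simp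
        exact DFunLike.congr_fun this w
      rw [h1, chain, MonoidHom.mem_ker.1 hw, map_one]
    · have : (FreeGroup.lift (fun n : ℕ => if n = 0 then (FreeGroup.of 0 : F2) else FreeGroup.of 1)).comp
          (FreeGroup.lift (fun i : Fin 2 => FreeGroup.of (i : ℕ))) = MonoidHom.id _ := by
        ext1 i
        fin_cases i <;> simp
      exact DFunLike.congr_fun this w
  · rw [Subgroup.closure_le]
    rintro _ ⟨f, w, hw, rfl⟩
    exact hw f

end Run7.h253.Pr
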