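import Pool.Agent.Run7.h253.Pr.Defs

/-!
# No zero divisors
-/

set_option autoImplicit false

namespace Run7.h253.Pr

/-- lexicographic key -/
def key (g : H) : ℤ ×ₗ ℤ ×ₗ ℤ := toLex (g.a, toLex (g.b, g.c))

lemma key_inj : Function.Injective key := by
  intro g h hgh
  simp only [key, EmbeddingLike.apply_eq_iff_eq, Prod.mk.injEq] at hgh
  ext
  · exact hgh.1
  · exact hgh.2.1
  · exact hgh.2.2

noncomputable instance : LinearOrder H := LinearOrder.lift' key key_inj

lemma lt_iff (g h : H) : g < h ↔ g.a < h.a ∨ g.a = h.a ∧ (g.b < h.b ∨ g.b = h.b ∧ g.c < h.c) := by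
  change key g < key h ↔ _
  simp [key, Prod.Lex.lt_iff]

instance : MulLeftStrictMono H := ⟨fun k g h hgh => by
  change k * g < k * h
  rw [lt_iff] at hgh ⊢
  simp only [H.mul_a, H.mul_b, H.mul_c]
  rcases hgh with h1 | ⟨h1, h2 | ⟨h2, h3⟩⟩
  · left; omega
  · right; exact ⟨by omega, Or.inl (by omega)⟩
  · right; refine ⟨by omega, Or.inr ⟨by omega, ?_⟩⟩
    rw [h1, h2]; omega⟩

instance : MulRightStrictMono H := ⟨fun k g h hgh => by
  change g * k < h * k
  rw [lt_iff] at hgh ⊢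
  simp only [H.mul_a, H.mul_b, H.mul_c]
  rcases hgh with h1 | ⟨h1, h2 | ⟨h2, h3⟩⟩
  · left; omega
  · right; exact ⟨by omega, Or.inl (by omega)⟩
  · right; refine ⟨by omega, Or.inr ⟨by omega, ?_⟩⟩
    rw [h1, h2]; omega⟩

instance : TwoUniqueProds H := inferInstance

instance : NoZeroDivisors R := inferInstance

end Run7.h253.Pr
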