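import Pool.Agent.Run7.h253.Pr.Mag
import Pool.Agent.Run7.h253.Pr.Alg

/-!
# Words with given Fox derivatives
-/

set_option autoImplicit false

namespace Run7.h253.Pr

open Mg

/-- the multiples of the relation row which are rows of Fox derivatives -/
def T : Set R := {t | ∃ w : F2, mu w = ⟨1, t * (Y0 * Y1), t * (Y1 - Y0 * X)⟩}

lemma T_add {a b : R} (ha : a ∈ T) (hb : b ∈ T) : a + b ∈ T := by
  obtain ⟨w, hw⟩ := ha
  obtain ⟨w', hw'⟩ := hb
  refine ⟨w * w', ?_⟩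
  rw [map_mul, hw, hw']
  apply Mg.ext <;> simp [add_mul]

lemma T_neg {a : R} (ha : a ∈ T) : -a ∈ T := by
  obtain ⟨w, hw⟩ := ha
  refine ⟨w⁻¹, ?_⟩
  rw [map_inv, hw]
  apply Mg.ext <;> simp

lemma T_zero : (0 : R) ∈ T := ⟨1, by apply Mg.ext <;> simp⟩

lemma T_s {a : R} (ha : a ∈ T) (w : F2) : s (mu w).g * a ∈ T := by
  obtain ⟨w', hw⟩ := ha
  refine ⟨w * w' * w⁻¹, ?_⟩
  rw [map_mul, map_mul, map_inv, hw]
  have h : ∀ b : R, s (mu w).g * (s ((mu w).g)⁻¹ * b) = b := by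
    intro b
    rw [← mul_assoc, ← map_mul]
    simp
  apply Mg.ext
  · simp
  · simp [h, mul_add, mul_assoc]
  · simp [h, mul_add, mul_assoc]

/-- the commutator `[x, y]` -/
noncomputable def zF : F2 := FreeGroup.of 0 * FreeGroup.of 1 * (FreeGroup.of 0)⁻¹ * (FreeGroup.of 1)⁻¹

lemma mu_zF_g : (mu zF).g = z := by
  simp only [zF, map_mul, map_inv, mu0, mu1, mul_g, inv_g]
  ext <;> simp [x, y, z]

lemma XYXi : X * Y * s x⁻¹ = Z * Y := by
  simp only [X, Y, Z, ← map_mul]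
  exact congrArg s (by ext <;> simp [x, y, z])

lemma XYXiYi : X * Y * s x⁻¹ * s y⁻¹ = Z := by
  simp only [X, Y, Z, ← map_mul]
  exact congrArg s (by ext <;> simp [x, y, z])

lemma mu_zF : mu zF = ⟨z, 1 - Z * Y, X - Z⟩ := by
  apply Mg.ext
  · exact mu_zF_g
  · simp only [zF, map_mul, map_inv, mu0, mu1, mul_g, inv_g, mul_p, inv_p]
    have := XYXi
    simp only [X, Y] at this
    simp only [← map_mul, mul_zero, neg_zero, add_zero, mul_one, mul_neg]
    simp only [map_mul, this, Y]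
    noncomm_ring
  · simp only [zF, map_mul, map_inv, mu0, mu1, mul_g, inv_g, mul_q, inv_q]
    have := XYXiYi
    simp only [X, Y] at this
    simp only [map_mul, mul_zero, neg_zero, add_zero, mul_one, mul_neg, zero_add, ← mul_assoc, this, X]
    noncomm_ring

lemma YZYi : Y * Z * s y⁻¹ = Z := by
  simp only [Y, Z, ← map_mul]
  exact congrArg s (by ext <;> simp [y, z])

lemma YZYiZi : Y * Z * s y⁻¹ * s z⁻¹ = 1 := by
  simp only [Y, Z, ← map_mul]
  rw [← map_one s]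
  exact congrArg s (by ext <;> simp [y, z])

lemma YZ : Y * Z = Z * Y := by
  simp only [Y, Z, ← map_mul]
  exact congrArg s (by ext <;> simp [y, z])

lemma T_one : (1 : R) ∈ T := by
  refine ⟨(FreeGroup.of 1 * zF * (FreeGroup.of 1)⁻¹ * zF⁻¹)⁻¹, ?_⟩
  have h : mu (FreeGroup.of 1 * zF * (FreeGroup.of 1)⁻¹ * zF⁻¹) = ⟨1, -(Y0 * Y1), -(Y1 - Y0 * X)⟩ := by
    apply Mg.ext
    · simp only [map_mul, map_inv, mu_zF, mu1, mul_g, inv_g]
      ext <;> simp [y, z]
    · simp only [map_mul, map_inv, mu_zF, mu1, mul_g, inv_g, mul_p, inv_p]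
      have h1 := YZYiZi
      have h2 := YZ
      simp only [Y, Z] at h1 h2
      simp only [map_mul, mul_zero, neg_zero, add_zero, mul_one, mul_neg, zero_add, ← mul_assoc, h1,
        Y0, Y1, Y, Z]
      noncomm_ring
    · simp only [map_mul, map_inv, mu_zF, mu1, mul_g, inv_g, mul_q, inv_q]
      have h1 := YZYiZi
      have h3 := YZYi
      have h2 := YZ
      have h4 : s z * s z⁻¹ = 1 := by rw [← map_mul]; simp
      simp only [Y, Z] at h1 h2 h3
      simp only [map_mul, mul_zero, neg_zero, add_zero, mul_one, mul_neg, zero_add, ← mul_assoc, h1, h3,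
        h4, Y0, Y1, Y, Z]
      rw [← h2]
      noncomm_ring
  rw [map_inv, h]
  apply Mg.ext <;> simp

/-- the group ring of the image -/
noncomputable def C : Subring R := Subring.closure {t | ∃ w : F2, t = s (mu w).g}

lemma C_T {a : R} (ha : a ∈ C) : ∀ t ∈ T, a * t ∈ T := by
  induction ha using Subring.closure_induction with
  | mem a ha =>
    obtain ⟨w, rfl⟩ := ha
    intro t ht
    exact T_s ht w
  | zero => intro t _; rw [zero_mul]; exact T_zero
  | one => intro t ht; rwa [one_mul]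
  | add a b _ _ ha hb => intro t ht; rw [add_mul]; exact T_add (ha t ht) (hb t ht)
  | neg a _ ha => intro t ht; rw [neg_mul]; exact T_neg (ha t ht)
  | mul a b _ _ ha hb => intro t ht; rw [mul_assoc]; exact ha _ (hb t ht)

lemma C_le {a : R} (ha : a ∈ C) : a ∈ T := by
  have := C_T ha 1 T_one
  rwa [mul_one] at this

lemma X_C : X ∈ C := Subring.subset_closure ⟨FreeGroup.of 0, by rw [mu0]; rfl⟩

noncomputable def C' : Subring A := C.comap io

lemma C'_y : yA ∈ C' := by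
  show io yA ∈ C
  rw [io_y]
  exact Subring.subset_closure ⟨FreeGroup.of 1, by rw [mu1]; rfl⟩
lemma C'_yi : yiA ∈ C' := by
  show io yiA ∈ C
  refine Subring.subset_closure ⟨(FreeGroup.of 1)⁻¹, ?_⟩
  rw [map_inv, mu1, yiA, io_single]; rfl
lemma C'_z : zA ∈ C' := by
  show io zA ∈ C
  refine Subring.subset_closure ⟨zF, ?_⟩
  rw [mu_zF_g, io_z]; rfl
lemma C'_zi : ziA ∈ C' := by
  show io ziA ∈ C
  refine Subring.subset_closure ⟨zF⁻¹, ?_⟩
  rw [map_inv, inv_g, mu_zF_g, ziA, io_single]; rfl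

lemma C'_m : mA ∈ C' := sub_mem (mul_mem C'_z C'_z) (one_mem _)
lemma C'_y0 : y0 ∈ C' := sub_mem C'_y (one_mem _)
lemma C'_y1 : y1 ∈ C' := sub_mem (mul_mem C'_z C'_y) (one_mem _)
lemma C'_ym : ym ∈ C' := sub_mem (mul_mem C'_zi C'_y) (one_mem _)
lemma C'_u : uA ∈ C' := add_mem (one_mem _) (mul_mem C'_m (mul_mem C'_y0 C'_y1))
lemma C'_um : um ∈ C' := add_mem (one_mem _) (mul_mem C'_m (mul_mem C'_ym C'_y0))
lemma C'_c : cA ∈ C' :=
  mul_mem (mul_mem C'_z C'_yi) (mul_mem C'_y0 (mul_mem C'_y1 C'_y1))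
lemma C'_tc : ta cA ∈ C' := by
  have h : ta cA = zA * (ziA * yiA) * (y1 * ((zA * (zA * yA) - 1) * (zA * (zA * yA) - 1))) := by
    simp only [cA, map_mul, ta_z, ta_yi, ta_y0, y1, map_sub, map_one, ta_y]
  rw [h]
  exact mul_mem (mul_mem C'_z (mul_mem C'_zi C'_yi)) (mul_mem C'_y1 (mul_mem
    (sub_mem (mul_mem C'_z (mul_mem C'_z C'_y)) (one_mem _))
    (sub_mem (mul_mem C'_z (mul_mem C'_z C'_y)) (one_mem _))))
lemma C'_d : dA ∈ C' := by
  have h2 : (2 : A) ∈ C' := by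
    rw [← one_add_one_eq_two]; exact add_mem (one_mem _) (one_mem _)
  exact add_mem (sub_mem h2 C'_u) C'_c

lemma m_C : m ∈ C := by rw [← io_m]; exact C'_m
lemma q_C : q ∈ C := mul_mem C'_um (mul_mem C'_y0 C'_c)
lemma p_C : p ∈ C := by
  refine add_mem ?_ (mul_mem ?_ X_C)
  · exact sub_mem (add_mem (one_mem _) C'_d) (mul_mem C'_u C'_d)
  · exact mul_mem C'_m (mul_mem C'_y0 (mul_mem C'_y1 C'_tc))

lemma um1 : m * (Y0 * Y1) = u - 1 := by simp [u]
lemma vm1 : m * (Y1 - Y0 * X) = v := rfl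

lemma exists_row {t : R} (ht : t ∈ C) : ∃ w : F2, mu w = ⟨1, t * (u - 1), t * v⟩ := by
  obtain ⟨w, hw⟩ := C_le (mul_mem ht m_C)
  refine ⟨w, ?_⟩
  rw [hw, mul_assoc, mul_assoc, um1, vm1]

end Run7.h253.Pr
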